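import Pool.Agent.H26.Lib.R_seed8.W401.Cheb.Grp
import Pool.Agent.H46.Lib.R_seed8.H484R2.Pit

/-! Assembly of Chebotarev's theorem: one value of the auxiliary character. -/

set_option autoImplicit false
set_option linter.unusedSectionVars false

namespace Pool.Agent.W401.Cheb

open NumberField Filter Topology Finset

/-- the number of degree one primes above `p` -/
noncomputable def hc (K : Type) [Field K] [NumberField K] (p : ℕ) : ℝ := Nat.card (𝓞 K →+* ZMod p)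

lemma hc_nonneg (K : Type) [Field K] [NumberField K] (p : ℕ) : 0 ≤ hc K p := Nat.cast_nonneg _

lemma pit_M (K : Type) [Field K] [NumberField K] : Tendsto (M (hc K)) atTop (𝓝 1) :=
  Pool.Agent.H484R2.pit K

/-- complex mean values -/
noncomputable def Mc (a : ℕ → ℂ) (N : ℕ) : ℂ := (∑ p ∈ pr N, a p) / (Nat.primeCounting N : ℂ)

lemma Mc_smul (c : ℂ) (a : ℕ → ℂ) (N : ℕ) : Mc (fun p => c * a p) N = c * Mc a N := by
  unfold Mc; rw [← mul_sum, mul_div_assoc]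

lemma Mc_sum {ι : Type*} (s : Finset ι) (a : ι → ℕ → ℂ) (N : ℕ) :
    Mc (fun p => ∑ i ∈ s, a i p) N = ∑ i ∈ s, Mc (a i) N := by
  unfold Mc; rw [sum_comm, sum_div]

lemma Mc_ofReal (a : ℕ → ℝ) (N : ℕ) : Mc (fun p => (a p : ℂ)) N = (M a N : ℂ) := by
  unfold Mc M; push_cast; rfl

lemma Mc_congr {a b : ℕ → ℂ} {D : ℕ} (hD : 0 < D)
    (h : ∀ p, p.Prime → ¬ p ∣ D → a p = b p) {c : ℂ} (hb : Tendsto (Mc b) atTop (𝓝 c)) :
    Tendsto (Mc a) atTop (𝓝 c) := by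
  have h1 : ∀ N, ‖Mc a N - Mc b N‖ ≤ (∑ p ∈ D.divisors, ‖a p - b p‖) / (Nat.primeCounting N : ℝ) := by
    intro N
    unfold Mc
    rw [← sub_div, norm_div, ← sum_sub_distrib, Complex.norm_natCast]
    refine div_le_div_of_nonneg_right ?_ (Nat.cast_nonneg _)
    refine (norm_sum_le _ _).trans ?_
    have h2 : ∑ p ∈ pr N, ‖a p - b p‖ = ∑ p ∈ (pr N).filter (fun p => p ∣ D), ‖a p - b p‖ := by
      rw [sum_filter]
      refine sum_congr rfl fun p hp => ?_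
      split_ifs with hpD
      · rfl
      · rw [h p (mem_pr.mp hp).2 hpD, sub_self, norm_zero]
    rw [h2]
    refine sum_le_sum_of_subset_of_nonneg ?_ fun _ _ _ => norm_nonneg _
    intro p hp
    rw [mem_filter] at hp
    exact Nat.mem_divisors.mpr ⟨hp.2, hD.ne'⟩
  have h3 := squeeze_zero_norm h1 (tendsto_const_nhds.div_atTop tendsto_pc)
  have := h3.add hb
  rw [zero_add] at this
  exact this.congr fun N => by ring

/-- orthogonality -/
lemma geom_root {r : ℕ} {z : ℂ} (hz : z ^ r = 1) :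
    (∑ i ∈ range r, z ^ i) = if z = 1 then (r : ℂ) else 0 := by
  split_ifs with h
  · subst h; simp
  · have := mul_geom_sum z r
    rw [hz, sub_self] at this
    rcases mul_eq_zero.mp this with h1 | h1
    · exact absurd (sub_eq_zero.mp h1) h
    · exact h1

lemma card_roots (r : ℕ) (hr : 0 < r) : Nat.card {ζ : ℂˣ // ζ ^ r = 1} = r := by
  have : NeZero r := ⟨hr.ne'⟩
  have h := Complex.card_rootsOfUnity r
  exact (Nat.card_congr (Equiv.subtypeEquivRight fun ζ => (mem_rootsOfUnity r ζ).symm)).trans h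

section
variable {L L' : Type} [Field L] [NumberField L] [IsGalois ℚ L] [Field L'] [NumberField L']
  [IsGalois ℚ L'] [Algebra L L']

/-- the subgroup generated by `(g, ζ)` in `Gal(L'/ℚ)` -/
def TT (res : Gal(L'/ℚ) →* Gal(L/ℚ)) (ω : Gal(L'/ℚ) →* ℂˣ) (g : Gal(L/ℚ)) (ζ : ℂˣ) :
    Subgroup Gal(L'/ℚ) := (Subgroup.zpowers (g, ζ)).comap (res.prod ω)

lemma mem_TT {res : Gal(L'/ℚ) →* Gal(L/ℚ)} {ω : Gal(L'/ℚ) →* ℂˣ} {g : Gal(L/ℚ)} {ζ : ℂˣ}
    {σ : Gal(L'/ℚ)} : σ ∈ TT res ω g ζ ↔ ∃ j : ℤ, g ^ j = res σ ∧ ζ ^ j = ω σ := by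
  unfold TT
  rw [Subgroup.mem_comap, Subgroup.mem_zpowers_iff]
  simp [Prod.ext_iff]

variable {res : Gal(L'/ℚ) →* Gal(L/ℚ)} {ω : Gal(L'/ℚ) →* ℂˣ} {r : ℕ} (hr : 0 < r)
  (hω : ∀ σ, ω σ ^ r = 1)
  (hsurj : ∀ (g : Gal(L/ℚ)) (ζ : ℂˣ), ζ ^ r = 1 → ∃ σ, res σ = g ∧ ω σ = ζ)
  {g : Gal(L/ℚ)} {ζ : ℂˣ} (hζ : ζ ^ r = 1) (hf : orderOf g ∣ orderOf ζ)

include hζ hsurj hf in
lemma card_TT : Nat.card (TT res ω g ζ) = Nat.card (res.prod ω).ker * orderOf ζ := by
  have h1 : Nat.card (TT res ω g ζ) =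
      Nat.card {σ : Gal(L'/ℚ) // (res.prod ω) σ ∈ Subgroup.zpowers (g, ζ)} := rfl
  rw [h1, card_fib (res.prod ω) (fun b => b ∈ Subgroup.zpowers (g, ζ))]
  · congr 1
    change Nat.card (Subgroup.zpowers (g, ζ)) = _
    rw [Nat.card_zpowers, Prod.orderOf]
    exact Nat.lcm_eq_right hf
  · intro b hb
    obtain ⟨j, hj⟩ := Subgroup.mem_zpowers_iff.mp hb
    obtain ⟨σ, h1, h2⟩ := hsurj (g ^ j) (ζ ^ j) (by
      rw [← zpow_natCast, ← zpow_mul, mul_comm, zpow_mul, zpow_natCast, hζ, one_zpow])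
    refine ⟨σ, ?_⟩
    rw [← hj, MonoidHom.prod_apply, h1, h2]
    rfl

include hr hω hsurj in
lemma card_res_ker : Nat.card res.ker = Nat.card (res.prod ω).ker * r := by
  have h1 : Nat.card res.ker =
      Nat.card {σ : Gal(L'/ℚ) // ((res.prod ω) σ).1 = 1 ∧ ((res.prod ω) σ).2 ^ r = 1} := by
    refine Nat.card_congr (Equiv.subtypeEquivRight fun σ => ?_)
    rw [MonoidHom.mem_ker, MonoidHom.prod_apply]
    exact ⟨fun h => ⟨h, hω σ⟩, fun h => h.1⟩
  rw [h1, card_fib (res.prod ω) (fun b => b.1 = 1 ∧ b.2 ^ r = 1)]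
  · congr 1
    refine (Nat.card_congr ?_).trans (card_roots r hr)
    exact
      { toFun := fun b => ⟨b.1.2, b.2.2⟩
        invFun := fun ζ => ⟨(1, ζ.1), rfl, ζ.2⟩
        left_inv := by
          rintro ⟨⟨a, b⟩, h1, h2⟩
          simp only at h1
          subst h1
          rfl
        right_inv := fun _ => rfl }
  · rintro ⟨a, b⟩ ⟨h1, h2⟩
    obtain ⟨σ, h3, h4⟩ := hsurj a b h2
    exact ⟨σ, by rw [MonoidHom.prod_apply, h3, h4]⟩

variable (hres : ∀ (σ : Gal(L'/ℚ)) (x : L), algebraMap L L' (res σ x) = σ (algebraMap L L' x))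

include hr hω hsurj hres hζ hf in
/-- comparison of the two counts -/
lemma count (p : ℕ) [Fact p.Prime] (h : TorAt L p) (h' : TorAt L' p) {z : ℂˣ}
    (hz : ∀ (φ : 𝓞 L' →+* AlgebraicClosure (ZMod p)) (σ : Gal(L'/ℚ)), HasFrob p φ σ → ω σ = z) :
    (z = ζ → (r : ℝ) * (xp L g p : ℝ) =
      orderOf ζ * hc (IntermediateField.fixedField (TT res ω g ζ)) p) ∧
    (hc (IntermediateField.fixedField (TT res ω g ζ)) p ≠ 0 → ∃ j : ℤ, ζ ^ j = z) ∧
    (z ^ r = 1) := by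
  obtain ⟨φ⟩ := nonempty_hom h'
  obtain ⟨τ, hτ⟩ := exists_frob h' φ
  have hτ2 := hasFrob_rs res hres hτ
  have hωτ := hz φ τ hτ
  have hconj : ∀ σ : Gal(L'/ℚ), ω (σ⁻¹ * τ * σ) = z := by
    intro σ
    rw [map_mul, map_mul, map_inv, mul_comm (ω σ)⁻¹, mul_assoc, inv_mul_cancel, mul_one, hωτ]
  have hfix := card_fixed h' hτ (TT res ω g ζ)
  refine ⟨?_, ?_, ?_⟩
  · rintro rfl
    have e1 : Nat.card {σ : Gal(L'/ℚ) // σ⁻¹ * τ * σ ∈ TT res ω g z} =
        Nat.card res.ker * xp L g p := by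
      rw [xp_eq h hτ2, ← card_fib res (fun b => b⁻¹ * res τ * b = g)]
      · refine Nat.card_congr (Equiv.subtypeEquivRight fun σ => ?_)
        rw [mem_TT, hconj, map_mul, map_mul, map_inv]
        constructor
        · rintro ⟨j, h1, h2⟩
          rw [← h1]
          have h3 : z ^ (j - 1) = 1 := by rw [zpow_sub_one, h2, mul_inv_cancel]
          have h4 : (orderOf g : ℤ) ∣ j - 1 :=
            (Int.natCast_dvd_natCast.mpr hf).trans (orderOf_dvd_iff_zpow_eq_one.mpr h3)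
          have h5 := orderOf_dvd_iff_zpow_eq_one.mp h4
          rw [zpow_sub_one] at h5
          exact mul_inv_eq_one.mp h5
        · intro h1
          exact ⟨1, by rw [zpow_one, h1], by rw [zpow_one]⟩
      · intro b _
        obtain ⟨σ, h1, _⟩ := hsurj b 1 (one_pow r)
        exact ⟨σ, h1⟩
    rw [e1, card_TT hsurj hζ hf, card_res_ker hr hω hsurj] at hfix
    have hm : (Nat.card (res.prod ω).ker : ℝ) ≠ 0 := by
      exact_mod_cast Nat.card_pos.ne'
    have h2 : (Nat.card (res.prod ω).ker : ℝ) * (orderOf z *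
        hc (IntermediateField.fixedField (TT res ω g z)) p) =
        (Nat.card (res.prod ω).ker : ℝ) * (r * xp L g p) := by
      unfold hc
      rw [← mul_assoc, ← mul_assoc]
      exact_mod_cast hfix
    exact (mul_left_cancel₀ hm h2).symm
  · intro h1
    have h2 : Nat.card {σ : Gal(L'/ℚ) // σ⁻¹ * τ * σ ∈ TT res ω g ζ} ≠ 0 := by
      rw [← hfix]
      refine mul_ne_zero Nat.card_pos.ne' ?_
      unfold hc at h1
      exact_mod_cast h1
    obtain ⟨⟨σ, hσ⟩⟩ := (Nat.card_ne_zero.mp h2).1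
    obtain ⟨j, _, h4⟩ := mem_TT.mp hσ
    exact ⟨j, by rw [h4, hconj]⟩
  · rw [← hωτ, hω]

end

end Pool.Agent.W401.Cheb
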